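import Mathlib

/-!
Flags attached to a block lower triangular matrix.
-/

set_option autoImplicit false

namespace Pool.Agent.Q109.Rook

open Submodule

section adapted

variable {F V : Type*} [Field F] [AddCommGroup V] [Module F V] [FiniteDimensional F V]

/-- a basis adapted to a chain of subspaces -/
theorem adapted (C : Set (Submodule F V)) (hC : ∀ Z ∈ C, ∀ Z' ∈ C, Z ≤ Z' ∨ Z' ≤ Z) (n : ℕ) :
    ∀ E : Submodule F V, Module.finrank F E = n →
      ∃ B : Set V, LinearIndepOn F id B ∧ B ⊆ E ∧ E ≤ span F B ∧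
        ∀ Z ∈ C, Z ⊓ E ≤ span F (B ∩ Z) := by
  induction n using Nat.strong_induction_on with
  | _ n ih =>
    intro E hE
    by_cases h : ∃ Z ∈ C, Z ⊓ E ≠ E
    · -- choose a proper member of maximal dimension
      let S : Set ℕ := {m | ∃ Z ∈ C, Z ⊓ E ≠ E ∧ Module.finrank F (Z ⊓ E : Submodule F V) = m}
      have hSne : S.Nonempty := by
        obtain ⟨Z, hZ, hZE⟩ := h
        exact ⟨_, Z, hZ, hZE, rfl⟩
      have hSb : BddAbove S := ⟨n, by
        rintro m ⟨Z, -, -, rfl⟩
        rw [← hE]
        exact Submodule.finrank_mono inf_le_right⟩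
      obtain ⟨Z₀, hZ₀, hZ₀E, hZ₀m⟩ := Nat.sSup_mem hSne hSb
      have hlt : Module.finrank F (Z₀ ⊓ E : Submodule F V) < n := by
        rw [← hE]
        exact Submodule.finrank_lt_finrank_of_lt (lt_of_le_of_ne inf_le_right hZ₀E)
      obtain ⟨B₀, hB₀i, hB₀s, hB₀e, hB₀C⟩ := ih _ hlt (Z₀ ⊓ E) rfl
      obtain ⟨B, hBE, hB₀B, hsp, hBi⟩ : ∃ B : Set V, B ⊆ E ∧ B₀ ⊆ B ∧ (E : Set V) ⊆ span F B ∧
          LinearIndepOn F id B := by
        obtain ⟨b, h1, h2, h3, h4⟩ := exists_linearIndepOn_id_extension hB₀i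
          (show B₀ ⊆ (E : Set V) from hB₀s.trans inf_le_right)
        exact ⟨b, h1, h2, h3, h4⟩
      refine ⟨B, hBi, hBE, hsp, fun Z hZ => ?_⟩
      by_cases hZE : Z ⊓ E = E
      · rw [hZE]
        have : B ∩ Z = B := by
          rw [Set.inter_eq_left]
          exact fun x hx => (inf_eq_right.1 hZE) (hBE hx)
        rw [this]; exact hsp
      · have hle : Z ⊓ E ≤ Z₀ ⊓ E := by
          rcases hC Z hZ Z₀ hZ₀ with h1 | h1
          · exact inf_le_inf_right _ h1
          · have h2 : Z₀ ⊓ E ≤ Z ⊓ E := inf_le_inf_right _ h1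
            have h3 : Module.finrank F (Z ⊓ E : Submodule F V) ≤
                Module.finrank F (Z₀ ⊓ E : Submodule F V) := by
              rw [hZ₀m]
              exact le_csSup hSb ⟨Z, hZ, hZE, rfl⟩
            rw [Submodule.eq_of_le_of_finrank_le h2 h3]
        have h1 : Z ⊓ E ≤ Z ⊓ (Z₀ ⊓ E) := le_inf inf_le_left hle
        exact (h1.trans (hB₀C Z hZ)).trans (span_mono (Set.inter_subset_inter_left _ hB₀B))
    · push Not at h
      obtain ⟨B, hBE, -, hsp, hBi⟩ := exists_linearIndepOn_id_extension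
        (linearIndepOn_empty F (id : V → V)) (Set.empty_subset (E : Set V))
      refine ⟨B, hBi, hBE, hsp, fun Z hZ => ?_⟩
      have hZE := h Z hZ
      rw [hZE]
      have : B ∩ Z = B := by
        rw [Set.inter_eq_left]
        exact fun x hx => (inf_eq_right.1 hZE) (hBE hx)
      rw [this]; exact hsp

end adapted

section flags

variable {F ι : Type*} [Field F] [Fintype ι] [DecidableEq ι] (blk : ι → ℕ) (L : Matrix ι ι F)

/-- vectors supported in the blocks `≤ i` -/
def Le (F : Type*) [Field F] (i : ℕ) : Submodule F (ι → F) where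
  carrier := {v | ∀ p, i < blk p → v p = 0}
  add_mem' := fun ha hb p hp => by rw [Pi.add_apply, ha p hp, hb p hp, add_zero]
  zero_mem' := fun _ _ => rfl
  smul_mem' := fun c _ ha p hp => by rw [Pi.smul_apply, ha p hp, smul_zero]

/-- vectors supported in the block `i` -/
def W (F : Type*) [Field F] (i : ℕ) : Submodule F (ι → F) where
  carrier := {v | ∀ p, blk p ≠ i → v p = 0}
  add_mem' := fun ha hb p hp => by rw [Pi.add_apply, ha p hp, hb p hp, add_zero]
  zero_mem' := fun _ _ => rfl
  smul_mem' := fun c _ ha p hp => by rw [Pi.smul_apply, ha p hp, smul_zero]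

/-- projection to the block `i` -/
def pr (F : Type*) [Field F] (i : ℕ) : (ι → F) →ₗ[F] (ι → F) where
  toFun v p := if blk p = i then v p else 0
  map_add' a b := by ext p; simp only [Pi.add_apply]; split_ifs <;> simp
  map_smul' c a := by ext p; simp only [Pi.smul_apply]; split_ifs <;> simp

variable {blk} in
lemma pr_apply (i : ℕ) (v : ι → F) (p : ι) : pr blk F i v p = if blk p = i then v p else 0 := rfl

variable {blk} in
lemma pr_mem (i : ℕ) (v : ι → F) : pr blk F i v ∈ W blk F i := fun p hp => by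
  rw [pr_apply, if_neg hp]

/-- vectors supported in the blocks `≤ i` whose image is supported in the blocks `≤ j` -/
def X (i j : ℕ) : Submodule F (ι → F) where
  carrier := {x | x ∈ Le blk F i ∧ ∀ q, j < blk q → L.mulVec x q = 0}
  add_mem' := fun ha hb => ⟨add_mem ha.1 hb.1, fun q hq => by
    rw [Matrix.mulVec_add, Pi.add_apply, ha.2 q hq, hb.2 q hq, add_zero]⟩
  zero_mem' := ⟨zero_mem _, fun q _ => by rw [Matrix.mulVec_zero]; rfl⟩
  smul_mem' := fun c _ ha => ⟨Submodule.smul_mem _ c ha.1, fun q hq => by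
    rw [Matrix.mulVec_smul, Pi.smul_apply, ha.2 q hq, smul_zero]⟩

/-- the `j`-th component of the image -/
def rho (j : ℕ) : (ι → F) →ₗ[F] (ι → F) := pr blk F j ∘ₗ L.mulVecLin

variable {blk L} in
lemma rho_apply (j : ℕ) (x : ι → F) (p : ι) :
    rho blk L j x p = if blk p = j then L.mulVec x p else 0 := rfl

/-- the correspondence from the block `i` to the block `j` -/
def cor (i j : ℕ) (Z : Submodule F (ι → F)) : Submodule F (ι → F) :=
  map (rho blk L j) (X blk L i j ⊓ comap (pr blk F i) Z)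

/-- the members of the refined flag of the block `j` -/
inductive FH : ℕ → Submodule F (ι → F) → Prop
  | bot (i : ℕ) : FH i ⊥
  | top (i : ℕ) : FH i (W blk F i)
  | step (i j : ℕ) (Z : Submodule F (ι → F)) (hij : i < j) (hZ : FH i Z) : FH j (cor blk L i j Z)

variable {blk L}

lemma cor_mono {i j : ℕ} {Z Z' : Submodule F (ι → F)} (h : Z ≤ Z') :
    cor blk L i j Z ≤ cor blk L i j Z' := map_mono (inf_le_inf_left _ (comap_mono h))

lemma cor_le_W (i j : ℕ) (Z : Submodule F (ι → F)) : cor blk L i j Z ≤ W blk F j := by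
  rintro _ ⟨x, -, rfl⟩
  exact pr_mem _ _

lemma FH_le_W {j : ℕ} {Z : Submodule F (ι → F)} (h : FH blk L j Z) : Z ≤ W blk F j := by
  cases h with
  | bot => exact bot_le
  | top => exact le_rfl
  | step i j Z hij hZ => exact cor_le_W _ _ _

lemma pr_eq_zero_of_lt {i i' : ℕ} (h : i < i') {x : ι → F} (hx : x ∈ Le blk F i) :
    pr blk F i' x = 0 := by
  ext p
  rw [pr_apply]
  split_ifs with hp
  · exact hx p (by omega)
  · rfl

lemma Le_mono {i i' : ℕ} (h : i ≤ i') : Le blk F i ≤ Le blk F i' := fun _ hx p hp => hx p (by omega)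

lemma cor_lt {i i' j : ℕ} (h : i < i') (Z Z' : Submodule F (ι → F)) :
    cor blk L i j Z ≤ cor blk L i' j Z' := by
  apply map_mono
  rintro x ⟨hx, -⟩
  refine ⟨⟨Le_mono h.le hx.1, hx.2⟩, ?_⟩
  change pr blk F i' x ∈ Z'
  rw [pr_eq_zero_of_lt h hx.1]
  exact zero_mem _

theorem FH_chain (j : ℕ) : ∀ Z Z' : Submodule F (ι → F), FH blk L j Z → FH blk L j Z' →
    Z ≤ Z' ∨ Z' ≤ Z := by
  induction j using Nat.strong_induction_on with
  | _ j ih =>
    intro Z Z' hZ hZ'
    have hW := FH_le_W hZ
    have hW' := FH_le_W hZ'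
    cases hZ with
    | bot => exact Or.inl bot_le
    | top => exact Or.inr hW'
    | step i _ Y hij hY =>
      cases hZ' with
      | bot => exact Or.inr bot_le
      | top => exact Or.inl hW
      | step i' _ Y' hij' hY' =>
        rcases lt_trichotomy i i' with h | h | h
        · exact Or.inl (cor_lt h _ _)
        · subst h
          rcases ih i hij Y Y' hY hY' with h1 | h1
          · exact Or.inl (cor_mono h1)
          · exact Or.inr (cor_mono h1)
        · exact Or.inr (cor_lt h _ _)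

end flags

end Pool.Agent.Q109.Rook
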