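import Pool.Agent.Q109.Rook.A

/-!
Bases adapted to the flags of a block lower triangular matrix.
-/

set_option autoImplicit false
set_option linter.unusedSectionVars false

namespace Pool.Agent.Q109.Rook

open Submodule

universe u

variable {F : Type u} {ι : Type} [Field F] [Fintype ι] [DecidableEq ι] {blk : ι → ℕ}
  {L : Matrix ι ι F}

/-- the coordinate vectors of a block span it -/
lemma finrank_W (i : ℕ) : Module.finrank F (W blk F i) = Fintype.card {p // blk p = i} := by
  let g : {p // blk p = i} → (ι → F) := fun p => Pi.single p.1 1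
  have hg : LinearIndependent F g :=
    (Pi.basisFun F ι).linearIndependent.comp (fun p : {p // blk p = i} => p.1)
      Subtype.val_injective |> fun h => by
        convert h using 1
        ext p q
        simp [g, Pi.basisFun_apply]
  have hsp : span F (Set.range g) = W blk F i := by
    apply le_antisymm
    · rw [span_le]
      rintro _ ⟨p, rfl⟩
      intro q hq
      have : q ≠ p.1 := fun h => hq (by rw [h]; exact p.2)
      simp [g, Pi.single_eq_of_ne this]
    · intro v hv
      have h1 : v = ∑ p, v p • (Pi.single p (1 : F) : ι → F) := by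
        ext q
        simp [Finset.sum_apply, Pi.single_apply]
      rw [h1]
      refine Submodule.sum_mem _ fun p _ => ?_
      by_cases hp : blk p = i
      · exact Submodule.smul_mem _ _ (subset_span ⟨⟨p, hp⟩, rfl⟩)
      · rw [hv p hp, zero_smul]; exact zero_mem _
  rw [← hsp, finrank_span_eq_card hg]

lemma pr_of_mem {i : ℕ} {v : ι → F} (hv : v ∈ W blk F i) : pr blk F i v = v := by
  ext p
  rw [pr_apply]
  split_ifs with h
  · rfl
  · exact (hv p h).symm

lemma W_le_Le (i : ℕ) : W blk F i ≤ Le blk F i := fun _ hv p hp => hv p (by omega)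

lemma X_mono {i j j' : ℕ} (h : j ≤ j') : X blk L i j ≤ X blk L i j' :=
  fun _ hx => ⟨hx.1, fun q hq => hx.2 q (by omega)⟩

lemma rho_eq_zero {i j j' : ℕ} (h : j < j') {x : ι → F} (hx : x ∈ X blk L i j) :
    rho blk L j' x = 0 := by
  ext p
  rw [rho_apply]
  split_ifs with hp
  · exact hx.2 p (by omega)
  · rfl

lemma X_of_rho {i j : ℕ} {x : ι → F} (hx : x ∈ X blk L i (j + 1)) (h : rho blk L (j + 1) x = 0) :
    x ∈ X blk L i j := by
  refine ⟨hx.1, fun q hq => ?_⟩
  by_cases hq' : blk q = j + 1
  · have := congrFun h q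
    rw [rho_apply, if_pos hq'] at this
    exact this
  · exact hx.2 q (by omega)

/-- minimal members of the flag -/
lemma exists_min (i j : ℕ) (w : ι → F) (h : w ∈ cor blk L i j (W blk F i)) :
    ∃ Z, FH blk L i Z ∧ w ∈ cor blk L i j Z ∧
      ∀ Z', FH blk L i Z' → w ∈ cor blk L i j Z' → Z ≤ Z' := by
  let S : Set ℕ := {m | ∃ Z, FH blk L i Z ∧ w ∈ cor blk L i j Z ∧ Module.finrank F Z = m}
  have hS : S.Nonempty := ⟨_, W blk F i, .top i, h, rfl⟩
  obtain ⟨Z, hZ, hw, hm⟩ := Nat.sInf_mem hS
  refine ⟨Z, hZ, hw, fun Z' hZ' hw' => ?_⟩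
  rcases FH_chain i Z Z' hZ hZ' with h1 | h1
  · exact h1
  · have h2 : Module.finrank F Z ≤ Module.finrank F Z' := by
      rw [hm]; exact Nat.sInf_le ⟨Z', hZ', hw', rfl⟩
    rw [Submodule.eq_of_le_of_finrank_le h1 h2]

variable (blk L) in
/-- bases of the blocks with index at least `m`, with a matching -/
structure Good (m : ℕ) (β : ι → ι → F) (σ : ι → Option ι) (x : ι → ι → F) : Prop where
  g1 : ∀ p, m ≤ blk p → β p ∈ W blk F (blk p)
  g2 : ∀ j, m ≤ j → LinearIndependent F fun q : {q // blk q = j} => β q
  g3 : ∀ j, m ≤ j → ∀ Z, FH blk L j Z → Z ≤ span F {v | ∃ q, blk q = j ∧ β q = v ∧ v ∈ Z}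
  g4 : ∀ p, m ≤ blk p → x p ∈ Le blk F (blk p) ∧ pr blk F (blk p) (x p) = β p
  g5 : ∀ p q, m ≤ blk p → σ p = some q → blk p < blk q ∧ x p ∈ X blk L (blk p) (blk q) ∧
    rho blk L (blk q) (x p) = β q ∧ β q ∉ cor blk L (blk p) (blk q) ⊥
  g6 : ∀ p, m ≤ blk p → σ p = none → x p ∈ X blk L (blk p) (blk p)
  g7 : ∀ p p' q, m ≤ blk p → blk p = blk p' → σ p = some q → σ p' = some q → p = p'

omit [DecidableEq ι] in
lemma sum_sub {V : Type*} [AddCommMonoid V] (p : ι → Prop) [DecidablePred p]
    (g : {q // p q} → V) : ∑ k, g k = ∑ k, if h : p k then g ⟨k, h⟩ else 0 := by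
  rw [← Fintype.sum_subtype_add_sum_subtype p (fun k => if h : p k then g ⟨k, h⟩ else 0)]
  have h1 : ∑ i : {i // ¬ p i}, (if h : p i then g ⟨i, h⟩ else 0) = 0 :=
    Finset.sum_eq_zero fun k _ => dif_neg k.2
  rw [h1, add_zero]
  exact Finset.sum_congr rfl fun k _ => by rw [dif_pos k.2]

theorem step (i : ℕ) (β : ι → ι → F) (σ : ι → Option ι) (x : ι → ι → F)
    (h : Good blk L (i + 1) β σ x) :
    ∃ (κ : Type u) (_ : Fintype κ) (f : κ → ι → F) (τ : κ → Option ι) (y : κ → ι → F),
      (∀ k, f k ∈ W blk F i) ∧ LinearIndependent F f ∧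
      (∀ Z, FH blk L i Z → Z ≤ span F {v | ∃ k, f k = v ∧ v ∈ Z}) ∧
      (∀ k, y k ∈ Le blk F i ∧ pr blk F i (y k) = f k) ∧
      (∀ k q, τ k = some q → i < blk q ∧ y k ∈ X blk L i (blk q) ∧
        rho blk L (blk q) (y k) = β q ∧ β q ∉ cor blk L i (blk q) ⊥) ∧
      (∀ k, τ k = none → y k ∈ X blk L i i) ∧
      (∀ k k' q, τ k = some q → τ k' = some q → k = k') := by
  classical
  let Q : ι → Prop := fun q => i < blk q ∧ β q ∈ cor blk L i (blk q) (W blk F i) ∧
    β q ∉ cor blk L i (blk q) ⊥
  have hQ : ∀ q : {q // Q q}, ∃ Z, FH blk L i Z ∧ β q ∈ cor blk L i (blk q) Z ∧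
      ∀ Z', FH blk L i Z' → β q ∈ cor blk L i (blk q) Z' → Z ≤ Z' :=
    fun q => exists_min i (blk q) (β q) q.2.2.1
  choose Zf hZf hZf' hZm using hQ
  choose xq hxq hxq' using hZf'
  obtain ⟨B, hBi, hBE, -, hBZ⟩ := adapted {Z | FH blk L i Z}
    (fun Z hZ Z' hZ' => FH_chain i Z Z' hZ hZ') _
    (map (pr blk F i) (X blk L i i)) rfl
  have hyc : ∀ c : B, ∃ y ∈ X blk L i i, pr blk F i y = c := fun c => hBE c.2
  choose yc hyc hyc' using hyc
  have : Fintype B := hBi.setFinite.fintype
  let f : {q // Q q} ⊕ B → ι → F := Sum.elim (fun q => pr blk F i (xq q)) (fun c => c)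
  let τ : {q // Q q} ⊕ B → Option ι := Sum.elim (fun q => some q.1) (fun _ => none)
  let y : {q // Q q} ⊕ B → ι → F := Sum.elim xq yc
  have hyf : ∀ k, y k ∈ Le blk F i ∧ pr blk F i (y k) = f k := by
    rintro (q | c)
    · exact ⟨(hxq q).1.1, rfl⟩
    · exact ⟨(hyc c).1, hyc' c⟩
  refine ⟨{q // Q q} ⊕ B, inferInstance, f, τ, y, ?_, ?_, ?_, hyf, ?_, ?_, ?_⟩
  · rintro (q | c)
    · exact pr_mem _ _
    · obtain ⟨z, -, hz⟩ := hBE c.2
      change (c : ι → F) ∈ _
      rw [← hz]
      exact pr_mem _ _
  · -- independence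
    rw [Fintype.linearIndependent_iff]
    intro a ha
    have hy0 : pr blk F i (∑ k, a k • y k) = 0 := by
      rw [map_sum, ← ha]
      exact Finset.sum_congr rfl fun k _ => by rw [map_smul, (hyf k).2]
    -- the coefficients of the first part vanish
    have key : ∀ d j, Finset.univ.sup blk ≤ j + d → i ≤ j → ∀ q : {q // Q q}, j < blk q.1 →
        a (.inl q) = 0 := by
      intro d
      induction d with
      | zero =>
        intro j hj _ q hq
        have := Finset.le_sup (f := blk) (Finset.mem_univ q.1)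
        omega
      | succ d ih =>
        intro j hj hij q hq
        have h1 := ih (j + 1) (by omega) (by omega)
        by_cases hq' : blk q.1 = j + 1
        swap
        · exact h1 q (by omega)
        have hX : ∑ k, a k • y k ∈ X blk L i (j + 1) := by
          refine Submodule.sum_mem _ fun k _ => ?_
          rcases k with k | c
          · by_cases hk : j + 1 < blk k.1
            · rw [h1 k hk, zero_smul]; exact zero_mem _
            · exact Submodule.smul_mem _ _ (X_mono (by omega) (hxq k).1)
          · exact Submodule.smul_mem _ _ (X_mono (by omega) (hyc c))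
        have hc : rho blk L (j + 1) (∑ k, a k • y k) ∈ cor blk L i (j + 1) ⊥ :=
          ⟨_, ⟨hX, hy0⟩, rfl⟩
        have hr : rho blk L (j + 1) (∑ k, a k • y k) =
            ∑ k : {q // Q q}, (if blk k.1 = j + 1 then a (.inl k) else 0) • β k.1 := by
          rw [map_sum, Fintype.sum_sum_type]
          have : ∑ c : B, rho blk L (j + 1) (a (.inr c) • y (.inr c)) = 0 :=
            Finset.sum_eq_zero fun c _ => by
              rw [map_smul]
              rw [show rho blk L (j + 1) (y (.inr c)) = 0 from
                rho_eq_zero (show i < j + 1 by omega) (hyc c), smul_zero]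
          rw [this, add_zero]
          refine Finset.sum_congr rfl fun k _ => ?_
          rw [map_smul]
          split_ifs with hk
          · have := hxq' k
            rw [hk] at this
            change a (.inl k) • rho blk L (j + 1) (xq k) = _
            rw [this]
          · rcases lt_or_gt_of_ne hk with h2 | h2
            · rw [show rho blk L (j + 1) (y (.inl k)) = 0 from
                rho_eq_zero h2 (hxq k).1, smul_zero, zero_smul]
            · rw [h1 k h2, zero_smul, zero_smul]
        rw [hr] at hc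
        have hli := h.g2 (j + 1) (by omega)
        let v : {q // blk q = j + 1} → ι → F := fun q => β q
        have hli : LinearIndependent F v := hli
        have hc2 : cor blk L i (j + 1) ⊥ ≤
            span F (v '' {q | β q.1 ∈ cor blk L i (j + 1) ⊥}) := by
          refine (h.g3 (j + 1) (by omega) _ (.step i (j + 1) ⊥ (by omega) (.bot i))).trans
            (span_mono ?_)
          rintro _ ⟨q', hq', rfl, hq''⟩
          exact ⟨⟨q', hq'⟩, hq'', rfl⟩
        have hc3 : ∑ k : {q // Q q}, (if blk k.1 = j + 1 then a (.inl k) else 0) • β k.1 ∈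
            span F (v '' {q | β q.1 ∉ cor blk L i (j + 1) ⊥}) := by
          refine Submodule.sum_mem _ fun k _ => ?_
          split_ifs with hk
          · refine Submodule.smul_mem _ _ (subset_span ⟨⟨k.1, hk⟩, ?_, rfl⟩)
            have := k.2.2.2
            rw [hk] at this
            exact this
          · rw [zero_smul]; exact zero_mem _
        have hdis := hli.disjoint_span_image
          (s := {q | β q.1 ∈ cor blk L i (j + 1) ⊥}) (t := {q | β q.1 ∉ cor blk L i (j + 1) ⊥})
          (Set.disjoint_left.2 fun q h1 h2 => h2 h1)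
        have h0 := Submodule.disjoint_def.1 hdis _ (hc2 hc) hc3
        -- extend the coefficients by zero to the block
        let a' : {q // blk q = j + 1} → F := fun q => if hq : Q q.1 then a (.inl ⟨q.1, hq⟩) else 0
        have h0' : ∑ q, a' q • v q = 0 := by
          rw [← h0]
          have e1 : ∑ k : {q // Q q}, (if blk k.1 = j + 1 then a (.inl k) else 0) • β k.1 =
              ∑ k : ι, (if blk k = j + 1 then (if hq : Q k then a (.inl ⟨k, hq⟩) else 0) else 0) •
                β k := by
            rw [sum_sub]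
            refine Finset.sum_congr rfl fun k _ => ?_
            by_cases h3 : Q k <;> simp [h3]
          have e2 : ∑ q, a' q • v q =
              ∑ k : ι, (if blk k = j + 1 then (if hq : Q k then a (.inl ⟨k, hq⟩) else 0) else 0) •
                β k := by
            rw [sum_sub]
            refine Finset.sum_congr rfl fun k _ => ?_
            by_cases h3 : blk k = j + 1 <;> simp [h3, a', v]
          rw [e1, e2]
        have := Fintype.linearIndependent_iff.1 hli a' h0' ⟨q.1, hq'⟩
        simp only [a'] at this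
        rw [dif_pos q.2] at this
        exact this
    have hq0 : ∀ q : {q // Q q}, a (.inl q) = 0 := fun q =>
      key (Finset.univ.sup blk) i (by omega) le_rfl q q.2.1
    have hc0 : ∀ c : B, a (.inr c) = 0 := by
      have : ∑ c : B, a (.inr c) • (c : ι → F) = 0 := by
        rw [Fintype.sum_sum_type] at ha
        rw [Finset.sum_eq_zero (fun q _ => by rw [hq0 q, zero_smul]), zero_add] at ha
        exact ha
      exact Fintype.linearIndependent_iff.1 hBi _ this
    rintro (q | c)
    · exact hq0 q
    · exact hc0 c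
  · -- spanning
    intro Z hZ
    have key : ∀ d x, x ∈ X blk L i (i + d) → pr blk F i x ∈ Z →
        pr blk F i x ∈ span F {v | ∃ k, f k = v ∧ v ∈ Z} := by
      intro d
      induction d with
      | zero =>
        intro x hx hxZ
        have h1 : pr blk F i x ∈ Z ⊓ map (pr blk F i) (X blk L i i) := ⟨hxZ, x, hx, rfl⟩
        refine span_mono ?_ (hBZ Z hZ h1)
        rintro v ⟨hv, hvZ⟩
        exact ⟨.inr ⟨v, hv⟩, rfl, hvZ⟩
      | succ d ih =>
        intro x hx hxZ
        set S := span F {v | ∃ k, f k = v ∧ v ∈ Z} with hS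
        have hx : x ∈ X blk L i (i + d + 1) := hx
        have h1 : cor blk L i (i + d + 1) Z ≤ cor blk L i (i + d + 1) (Z ⊓ S) := by
          refine (h.g3 (i + d + 1) (by omega) _ (.step i _ Z (by omega) hZ)).trans ?_
          rw [span_le]
          rintro _ ⟨q, hq, rfl, hqZ⟩
          by_cases hqb : β q ∈ cor blk L i (i + d + 1) ⊥
          · exact cor_mono bot_le hqb
          · have hqQ : Q q := by
              refine ⟨by omega, ?_, ?_⟩
              · rw [hq]; exact cor_mono (FH_le_W hZ) hqZ
              · rw [hq]; exact hqb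
            have h2 : Zf ⟨q, hqQ⟩ ≤ Z := hZm ⟨q, hqQ⟩ Z hZ (by rw [hq]; exact hqZ)
            have h3 := hxq ⟨q, hqQ⟩
            have h4 := hxq' ⟨q, hqQ⟩
            simp only [hq] at h3 h4
            have h5 : pr blk F i (xq ⟨q, hqQ⟩) ∈ Z := h2 h3.2
            refine ⟨xq ⟨q, hqQ⟩, ⟨h3.1, h5, ?_⟩, h4⟩
            exact subset_span ⟨.inl ⟨q, hqQ⟩, rfl, h5⟩
        obtain ⟨x', ⟨hx', hx'Z, hx'S⟩, hxx⟩ := h1 ⟨x, ⟨hx, hxZ⟩, rfl⟩
        have h6 : x - x' ∈ X blk L i (i + d) := X_of_rho (sub_mem hx hx') (by
          rw [map_sub, hxx, sub_self])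
        have h7 := ih (x - x') h6 (by
          rw [map_sub]; exact sub_mem hxZ hx'Z)
        have h8 : pr blk F i x = pr blk F i (x - x') + pr blk F i x' := by
          rw [map_sub, sub_add_cancel]
        rw [h8]
        exact add_mem h7 hx'S
    intro z hz
    have hzW : z ∈ W blk F i := FH_le_W hZ hz
    have h1 : pr blk F i z = z := pr_of_mem hzW
    have h2 := key (Finset.univ.sup blk) z ⟨W_le_Le i hzW, fun q hq => by
      have := Finset.le_sup (f := blk) (Finset.mem_univ q)
      omega⟩ (by rw [h1]; exact hz)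
    rw [h1] at h2
    exact h2
  · rintro (q | c) q' hq'
    · obtain rfl : q.1 = q' := by simpa [τ] using hq'
      exact ⟨q.2.1, (hxq q).1, hxq' q, q.2.2.2⟩
    · exact absurd hq' (by simp [τ])
  · rintro (q | c) hq'
    · exact absurd hq' (by simp [τ])
    · exact hyc c
  · rintro (q | c) (q' | c') q'' h1 h2
    · have e1 : q.1 = q'' := by simpa [τ] using h1
      have e2 : q'.1 = q'' := by simpa [τ] using h2
      exact congrArg _ (Subtype.ext (e1.trans e2.symm))
    · exact absurd h2 (by simp [τ])
    · exact absurd h1 (by simp [τ])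
    · exact absurd h1 (by simp [τ])

end Pool.Agent.Q109.Rook
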