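import Pool.Agent.Q109.Rook.B

/-!
Bases of all blocks and the resulting matrix factorisation.
-/

set_option autoImplicit false
set_option linter.unusedSectionVars false

namespace Pool.Agent.Q109.Rook

open Submodule

universe u

variable {F : Type u} {ι : Type} [Field F] [Fintype ι] [DecidableEq ι] {blk : ι → ℕ}
  {L : Matrix ι ι F}

theorem good_step (i : ℕ) (h : ∃ β σ x, Good blk L (i + 1) β σ x) :
    ∃ β σ x, Good blk L i β σ x := by
  classical
  obtain ⟨β, σ, x, h⟩ := h
  obtain ⟨κ, hκ, f, τ, y, h1, h2, h3, h4, h5, h6, h7⟩ := step i β σ x h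
  have hspan : span F (Set.range f) = W blk F i := by
    apply le_antisymm
    · rw [span_le]
      rintro _ ⟨k, rfl⟩
      exact h1 k
    · refine (h3 _ (.top i)).trans (span_mono ?_)
      rintro _ ⟨k, rfl, -⟩
      exact ⟨k, rfl⟩
  have hcard : Fintype.card {p // blk p = i} = Fintype.card κ := by
    rw [← finrank_W (F := F), ← hspan, finrank_span_eq_card h2]
  let e : {p // blk p = i} ≃ κ := Fintype.equivOfCardEq hcard
  let β' : ι → ι → F := fun p => if hp : blk p = i then f (e ⟨p, hp⟩) else β p
  let σ' : ι → Option ι := fun p => if hp : blk p = i then τ (e ⟨p, hp⟩) else σ p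
  let x' : ι → ι → F := fun p => if hp : blk p = i then y (e ⟨p, hp⟩) else x p
  have eβ : ∀ p (hp : blk p = i), β' p = f (e ⟨p, hp⟩) := fun p hp => dif_pos hp
  have eβ' : ∀ p, blk p ≠ i → β' p = β p := fun p hp => dif_neg hp
  have eσ : ∀ p (hp : blk p = i), σ' p = τ (e ⟨p, hp⟩) := fun p hp => dif_pos hp
  have eσ' : ∀ p, blk p ≠ i → σ' p = σ p := fun p hp => dif_neg hp
  have ex : ∀ p (hp : blk p = i), x' p = y (e ⟨p, hp⟩) := fun p hp => dif_pos hp
  have ex' : ∀ p, blk p ≠ i → x' p = x p := fun p hp => dif_neg hp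
  refine ⟨β', σ', x', ⟨?_, ?_, ?_, ?_, ?_, ?_, ?_⟩⟩
  · intro p hp
    by_cases hpi : blk p = i
    · rw [eβ p hpi, hpi]; exact h1 _
    · rw [eβ' p hpi]; exact h.g1 p (by omega)
  · intro j hj
    by_cases hji : j = i
    · subst hji
      have : (fun q : {q // blk q = j} => β' q) = f ∘ e := by
        funext q
        exact eβ q.1 q.2
      rw [this]
      exact h2.comp _ e.injective
    · have : (fun q : {q // blk q = j} => β' q.1) = fun q => β q.1 := by
        funext q
        exact eβ' q.1 (by rw [q.2]; exact hji)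
      rw [this]
      exact h.g2 j (by omega)
  · intro j hj Z hZ
    by_cases hji : j = i
    · subst hji
      refine (h3 Z hZ).trans (span_mono ?_)
      rintro _ ⟨k, rfl, hk⟩
      refine ⟨(e.symm k).1, (e.symm k).2, ?_, hk⟩
      rw [eβ _ (e.symm k).2]
      exact congrArg f (e.apply_symm_apply k)
    · refine (h.g3 j (by omega) Z hZ).trans (span_mono ?_)
      rintro _ ⟨q, hq, rfl, hq'⟩
      exact ⟨q, hq, eβ' q (by rw [hq]; exact hji), hq'⟩
  · intro p hp
    by_cases hpi : blk p = i
    · rw [eβ p hpi, ex p hpi, hpi]; exact h4 _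
    · rw [eβ' p hpi, ex' p hpi]; exact h.g4 p (by omega)
  · intro p q hp hpq
    by_cases hpi : blk p = i
    · rw [eσ p hpi] at hpq
      obtain ⟨a1, a2, a3, a4⟩ := h5 _ q hpq
      rw [ex p hpi, hpi, eβ' q (by omega)]
      exact ⟨a1, a2, a3, a4⟩
    · rw [eσ' p hpi] at hpq
      obtain ⟨a1, a2, a3, a4⟩ := h.g5 p q (by omega) hpq
      rw [ex' p hpi, eβ' q (by omega)]
      exact ⟨a1, a2, a3, a4⟩
  · intro p hp hpq
    by_cases hpi : blk p = i
    · rw [eσ p hpi] at hpq
      rw [ex p hpi, hpi]
      exact h6 _ hpq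
    · rw [eσ' p hpi] at hpq
      rw [ex' p hpi]
      exact h.g6 p (by omega) hpq
  · intro p p' q hp hpp h8 h9
    by_cases hpi : blk p = i
    · rw [eσ p hpi] at h8
      rw [eσ p' (by rw [← hpp]; exact hpi)] at h9
      have := e.injective (h7 _ _ q h8 h9)
      exact congrArg Subtype.val this
    · rw [eσ' p hpi] at h8
      rw [eσ' p' (by rw [← hpp]; exact hpi)] at h9
      exact h.g7 p p' q (by omega) hpp h8 h9

variable (blk L) in
theorem good_zero : ∃ β σ x, Good blk L 0 β σ x := by
  have key : ∀ d m, Finset.univ.sup blk < m + d → ∃ β σ x, Good blk L m β σ x := by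
    intro d
    induction d with
    | zero =>
      intro m hm
      have hb : ∀ p, blk p < m := fun p => by
        have := Finset.le_sup (f := blk) (Finset.mem_univ p)
        omega
      refine ⟨fun _ => 0, fun _ => none, fun _ => 0, ⟨?_, ?_, ?_, ?_, ?_, ?_, ?_⟩⟩
      · intro p hp; have := hb p; omega
      · intro j hj
        have : IsEmpty {q // blk q = j} := ⟨fun q => by have := hb q.1; have := q.2; omega⟩
        exact linearIndependent_empty_type
      · intro j hj Z hZ z hz
        have : z = 0 := by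
          ext p
          exact FH_le_W hZ hz p (by have := hb p; omega)
        rw [this]; exact zero_mem _
      · intro p hp; have := hb p; omega
      · intro p q hp; have := hb p; omega
      · intro p hp; have := hb p; omega
      · intro p p' q hp; have := hb p; omega
    | succ d ih =>
      intro m hm
      exact good_step m (ih (m + 1) (by omega))
  exact key (Finset.univ.sup blk + 1) 0 (by omega)

/-! ### the matrices -/

variable (blk) in
/-- strictly block upper triangular -/
def Up (M : Matrix ι ι F) : Prop := ∀ p q, ¬ blk p < blk q → M p q = 0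

variable (blk) in
/-- block upper triangular -/
def Upw (M : Matrix ι ι F) : Prop := ∀ p q, blk q < blk p → M p q = 0

variable (blk) in
/-- block diagonal -/
def Dg (M : Matrix ι ι F) : Prop := ∀ p q, blk p ≠ blk q → M p q = 0

lemma Up.mul {M T : Matrix ι ι F} (hM : Up blk M) (hT : Upw blk T) : Up blk (M * T) := by
  intro p q hpq
  rw [Matrix.mul_apply]
  refine Finset.sum_eq_zero fun k _ => ?_
  by_cases h : blk p < blk k
  · rw [hT k q (by omega), mul_zero]
  · rw [hM p k h, zero_mul]

lemma Up.mul' {M T : Matrix ι ι F} (hM : Up blk M) (hT : Upw blk T) : Up blk (T * M) := by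
  intro p q hpq
  rw [Matrix.mul_apply]
  refine Finset.sum_eq_zero fun k _ => ?_
  by_cases h : blk k < blk q
  · rw [hT p k (by omega), zero_mul]
  · rw [hM k q h, mul_zero]

lemma Upw.mul {M T : Matrix ι ι F} (hM : Upw blk M) (hT : Upw blk T) : Upw blk (M * T) := by
  intro p q hpq
  rw [Matrix.mul_apply]
  refine Finset.sum_eq_zero fun k _ => ?_
  by_cases h : blk k < blk p
  · rw [hM p k h, zero_mul]
  · rw [hT k q (by omega), mul_zero]

lemma Dg.upw {M : Matrix ι ι F} (hM : Dg blk M) : Upw blk M := fun p q h => hM p q (by omega)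

lemma Upw.inv {M : Matrix ι ι F} (hM : Upw blk M) (h : IsUnit M) : Upw blk M⁻¹ := by
  have := h.invertible
  exact Matrix.blockTriangular_inv_of_blockTriangular (b := blk) hM

lemma Dg.inv {M : Matrix ι ι F} (hM : Dg blk M) (h : IsUnit M) : Dg blk M⁻¹ := by
  have := h.invertible
  have h1 := Matrix.blockTriangular_inv_of_blockTriangular (b := blk) (M := M)
    (fun p q hpq => hM p q (by
      have : blk q < blk p := hpq
      omega))
  have h2 := Matrix.blockTriangular_inv_of_blockTriangular (b := OrderDual.toDual ∘ blk) (M := M)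
    (fun p q hpq => hM p q (by
      have : blk p < blk q := hpq
      omega))
  intro p q hpq
  rcases lt_or_gt_of_ne hpq with h3 | h3
  · exact h2 (show blk p < blk q from h3)
  · exact h1 h3

/-- unipotent matrices are invertible -/
lemma isUnit_of_up {u : Matrix ι ι F} (hu : Up blk (u - 1)) : IsUnit u := by
  have h1 : Matrix.BlockTriangular u blk := by
    intro p q hpq
    have := hu p q (by omega)
    rw [Matrix.sub_apply, Matrix.one_apply_ne (by rintro rfl; exact lt_irrefl _ hpq),
      sub_zero] at this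
    exact this
  have h2 : ∀ k : ℕ, (u.toSquareBlock blk k) = 1 := by
    intro k
    ext p q
    have := hu p.1 q.1 (by rw [p.2, q.2]; omega)
    rw [Matrix.sub_apply, sub_eq_zero] at this
    rw [Matrix.toSquareBlock_def, Matrix.of_apply, this]
    simp [Matrix.one_apply, Subtype.ext_iff]
  rw [Matrix.isUnit_iff_isUnit_det, h1.det, Finset.prod_eq_one]
  · exact isUnit_one
  · intro k _
    rw [h2, Matrix.det_one]

lemma up_inv {u : Matrix ι ι F} (hu : Up blk (u - 1)) : Up blk (u⁻¹ - 1) := by
  have h1 := isUnit_of_up hu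
  have h2 : Upw blk u := fun p q hpq => by
    have := hu p q (by omega)
    rw [Matrix.sub_apply, Matrix.one_apply_ne (by rintro rfl; exact lt_irrefl _ hpq),
      sub_zero] at this
    exact this
  have h3 : u⁻¹ - 1 = - (u⁻¹ * (u - 1)) := by
    rw [mul_sub, Matrix.nonsing_inv_mul _ ((Matrix.isUnit_iff_isUnit_det _).1 h1), mul_one]
    abel
  have h4 := hu.mul' (h2.inv h1)
  intro p q hpq
  rw [h3, Matrix.neg_apply, h4 p q hpq, neg_zero]

/-- the matching is injective -/
lemma Good.inj {β : ι → ι → F} {σ : ι → Option ι} {x : ι → ι → F} (h : Good blk L 0 β σ x)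
    {p p' q : ι} (h1 : σ p = some q) (h2 : σ p' = some q) : p = p' := by
  have key : ∀ p p', blk p < blk p' → σ p = some q → σ p' = some q → False := by
    intro p p' hpp h1 h2
    obtain ⟨-, a2, a3, -⟩ := h.g5 p q (Nat.zero_le _) h1
    obtain ⟨-, -, -, a4⟩ := h.g5 p' q (Nat.zero_le _) h2
    refine a4 (cor_lt hpp (W blk F (blk p)) ⊥ ⟨x p, ⟨a2, ?_⟩, a3⟩)
    exact pr_mem _ _
  rcases lt_trichotomy (blk p) (blk p') with h3 | h3 | h3
  · exact (key p p' h3 h1 h2).elim
  · exact h.g7 p p' q (Nat.zero_le _) h3 h1 h2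
  · exact (key p' p h3 h2 h1).elim

variable (blk L) in
theorem factor : ∃ (r a b : Matrix ι ι F) (σ : ι → Option ι), IsUnit r ∧ Dg blk r ∧
    Up blk (a - 1) ∧ Up blk (b - 1) ∧ (∀ p q, σ p = some q → blk p < blk q) ∧
    (∀ p p' q, σ p = some q → σ p' = some q → p = p') ∧
    ∀ y, Up blk y → Matrix.trace (L * (b * r⁻¹ * y * r * a)) =
      ∑ p, (σ p).elim 0 (fun q => y p q) := by
  classical
  obtain ⟨β, σ, x, h⟩ := good_zero blk L
  let R : Matrix ι ι F := Matrix.of fun k p => β p k
  let B : Matrix ι ι F := Matrix.of fun k p => x p k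
  let z : ι → ι → F := fun q => if hq : ∃ p, σ p = some q then
    fun k => if blk hq.choose < blk k then L.mulVec (x hq.choose) k else 0 else β q
  let A : Matrix ι ι F := Matrix.of fun k q => z q k
  have hRd : Dg blk R := fun k p hkp => h.g1 p (Nat.zero_le _) k hkp
  have hβ : ∀ p, β p ∈ W blk F (blk p) := fun p => h.g1 p (Nat.zero_le _)
  have hRu : IsUnit R := by
    rw [← Matrix.linearIndependent_cols_iff_isUnit, Fintype.linearIndependent_iff]
    intro c hc p₀
    have h1 : ∑ p : {p // blk p = blk p₀}, c p.1 • β p.1 = 0 := by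
      have h2 : pr blk F (blk p₀) (∑ p, c p • β p) = 0 := by
        have : ∑ p, c p • β p = 0 := hc
        rw [this, map_zero]
      rw [map_sum] at h2
      rw [sum_sub]
      refine Eq.trans ?_ h2
      refine Finset.sum_congr rfl fun k _ => ?_
      rw [map_smul]
      split_ifs with hk
      · rw [pr_of_mem (by rw [← hk]; exact hβ k)]
      · have : pr blk F (blk p₀) (β k) = 0 := by
          ext q
          rw [pr_apply]
          split_ifs with hq
          · exact hβ k q (by rw [hq]; exact fun h => hk h.symm)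
          · rfl
        rw [this, smul_zero]
    exact Fintype.linearIndependent_iff.1 (h.g2 (blk p₀) (Nat.zero_le _)) (fun p => c p.1) h1
      ⟨p₀, rfl⟩
  have hRinv : Dg blk R⁻¹ := hRd.inv hRu
  have hdet : IsUnit R.det := (Matrix.isUnit_iff_isUnit_det _).1 hRu
  have hB : Up blk (B - R) := by
    intro k p hkp
    change x p k - β p k = 0
    obtain ⟨h1, h2⟩ := h.g4 p (Nat.zero_le _)
    rcases lt_or_eq_of_le (not_lt.1 hkp) with h3 | h3
    · rw [h1 k h3, hβ p k (by omega), sub_zero]
    · have := congrFun h2 k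
      rw [pr_apply, if_pos h3.symm] at this
      rw [this, sub_self]
  have hz : ∀ p q, σ p = some q → ∀ k, blk p < blk k → z q k = L.mulVec (x p) k := by
    intro p q hpq k hk
    have hq : ∃ p, σ p = some q := ⟨p, hpq⟩
    have h1 : hq.choose = p := h.inj hq.choose_spec hpq
    have h2 : z q = fun k => if blk hq.choose < blk k then L.mulVec (x hq.choose) k else 0 :=
      dif_pos hq
    rw [h2]
    change (if blk hq.choose < blk k then L.mulVec (x hq.choose) k else 0) = _
    rw [h1, if_pos hk]
  have hA : Up blk (A - R) := by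
    intro k q hkq
    change z q k - β q k = 0
    by_cases hq : ∃ p, σ p = some q
    · obtain ⟨p, hp⟩ := hq
      obtain ⟨h1, h2, h3, -⟩ := h.g5 p q (Nat.zero_le _) hp
      rw [hz p q hp k (by omega)]
      rcases lt_or_eq_of_le (not_lt.1 hkq) with h4 | h4
      · rw [h2.2 k h4, hβ q k (by omega), sub_zero]
      · have := congrFun h3 k
        rw [rho_apply, if_pos h4.symm] at this
        rw [this, sub_self]
    · have : z q = β q := dif_neg hq
      rw [this, sub_self]
  have hmul : ∀ M : Matrix ι ι F, Up blk (M - R) → Up blk (M * R⁻¹ - 1) := by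
    intro M hM
    have : M * R⁻¹ - 1 = (M - R) * R⁻¹ := by
      rw [sub_mul, Matrix.mul_nonsing_inv _ hdet]
    rw [this]
    exact hM.mul hRinv.upw
  have hb := hmul B hB
  have hu := hmul A hA
  set b := B * R⁻¹ with hbdef
  set u := A * R⁻¹ with hudef
  have huu : IsUnit u := isUnit_of_up hu
  have huw : Upw blk u⁻¹ := by
    refine Upw.inv ?_ huu
    intro p q hpq
    have := hu p q (by omega)
    rw [Matrix.sub_apply, Matrix.one_apply_ne (by rintro rfl; exact lt_irrefl _ hpq),
      sub_zero] at this
    exact this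
  let D : Matrix ι ι F := Matrix.of fun q p => if σ p = some q then 1 else 0
  have hΩ : Upw blk (L * B - A * D) := by
    intro k p hkp
    rw [Matrix.sub_apply]
    have h1 : (L * B) k p = L.mulVec (x p) k := rfl
    rw [h1, Matrix.mul_apply]
    have h2 : ∀ q, A k q * D q p = if σ p = some q then z q k else 0 := by
      intro q
      change z q k * (if σ p = some q then 1 else 0) = _
      split_ifs <;> simp
    rw [Finset.sum_congr rfl fun q _ => h2 q]
    rcases hs : σ p with _ | q
    · rw [Finset.sum_eq_zero fun q _ => by simp, sub_zero]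
      exact (h.g6 p (Nat.zero_le _) hs).2 k hkp
    · rw [Finset.sum_eq_single q]
      · rw [if_pos rfl, hz p q hs k hkp, sub_self]
      · intro q' _ hq'
        rw [if_neg (fun h => hq' (Option.some_injective _ h).symm)]
      · intro h; exact absurd (Finset.mem_univ q) h
  refine ⟨R⁻¹, u⁻¹, b, σ, ?_, hRinv, up_inv hu, hb, ?_, fun p p' q => h.inj, ?_⟩
  · exact (Matrix.isUnit_nonsing_inv_iff).2 hRu
  · intro p q hpq
    exact (h.g5 p q (Nat.zero_le _) hpq).1
  · intro y hy
    rw [Matrix.nonsing_inv_nonsing_inv _ hdet]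
    have e1 : b * R = B := by
      rw [hbdef, Matrix.mul_assoc, Matrix.nonsing_inv_mul _ hdet, Matrix.mul_one]
    have e2 : u * R = A := by
      rw [hudef, Matrix.mul_assoc, Matrix.nonsing_inv_mul _ hdet, Matrix.mul_one]
    have hudet : IsUnit u.det := (Matrix.isUnit_iff_isUnit_det _).1 huu
    have e3 : R⁻¹ * u⁻¹ * A = 1 := by
      rw [← e2, Matrix.mul_assoc, ← Matrix.mul_assoc u⁻¹, Matrix.nonsing_inv_mul _ hudet,
        Matrix.one_mul, Matrix.nonsing_inv_mul _ hdet]
    have e4 : Matrix.trace (L * (b * R * y * R⁻¹ * u⁻¹)) =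
        Matrix.trace (R⁻¹ * u⁻¹ * (L * B) * y) := by
      rw [e1]
      have : L * (B * y * R⁻¹ * u⁻¹) = (L * B * y) * (R⁻¹ * u⁻¹) := by
        simp only [Matrix.mul_assoc]
      rw [this, Matrix.trace_mul_comm]
      simp only [Matrix.mul_assoc]
    have e5 : R⁻¹ * u⁻¹ * (L * B) = D + R⁻¹ * u⁻¹ * (L * B - A * D) := by
      rw [Matrix.mul_sub, ← Matrix.mul_assoc _ A D, e3, Matrix.one_mul]
      abel
    rw [e4, e5, Matrix.add_mul, Matrix.trace_add]
    have hΩ' : Upw blk (R⁻¹ * u⁻¹ * (L * B - A * D)) := (hRinv.upw.mul huw).mul hΩ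
    have e6 : Matrix.trace (R⁻¹ * u⁻¹ * (L * B - A * D) * y) = 0 := by
      rw [Matrix.trace]
      refine Finset.sum_eq_zero fun q _ => ?_
      exact (hy.mul' hΩ') q q (lt_irrefl _)
    rw [e6, add_zero, Matrix.trace_mul_comm, Matrix.trace]
    refine Finset.sum_congr rfl fun p _ => ?_
    rw [Matrix.diag_apply, Matrix.mul_apply]
    have h2 : ∀ q, y p q * D q p = if σ p = some q then y p q else 0 := by
      intro q
      change y p q * (if σ p = some q then 1 else 0) = _
      split_ifs <;> simp
    rw [Finset.sum_congr rfl fun q _ => h2 q]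
    rcases hs : σ p with _ | q
    · rw [Finset.sum_eq_zero fun q _ => by simp]
      rfl
    · rw [Finset.sum_eq_single q]
      · rw [if_pos rfl]; rfl
      · intro q' _ hq'
        rw [if_neg (fun h => hq' (Option.some_injective _ h).symm)]
      · intro h; exact absurd (Finset.mem_univ q) h

end Pool.Agent.Q109.Rook
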